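import Pool.Agent.H680R3.ZP.Stmts

/-! Task T4 of project ZP (helper879): an element regular at all places where `v` is regular is integral
over `𝔽_p[v]`. -/

set_option autoImplicit false
set_option linter.all false
set_option linter.overlappingInstances false

open Module IsDedekindDomain IntermediateField FF

namespace H680ZP.TInt

section

variable {k A L : Type*} (K0 : Type*) [Field k] [CommRing A] [IsDedekindDomain A] [Algebra k A]
  [Field K0] [Algebra A K0] [IsFractionRing A K0] [Field L] [Algebra K0 L] [Algebra A L]
  [IsScalarTower A K0 L] [FiniteDimensional K0 L] [Algebra.IsSeparable K0 L]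
  [Algebra k L] [IsScalarTower k A L]

include K0 in
theorem int_of_reg (z : L) (h : ∀ w : Place k L, (∀ a : A, w.Reg (algebraMap A L a)) → w.Reg z) :
    IsIntegral A z := by
  let B := integralClosure A L
  have : IsDedekindDomain B := integralClosure.isDedekindDomain A K0 L
  have : IsFractionRing B L := integralClosure.isFractionRing_of_finite_extension K0 L
  have hsc : IsScalarTower k B L := by
    refine IsScalarTower.of_algebraMap_eq fun c => ?_
    rw [IsScalarTower.algebraMap_apply k A B, ← IsScalarTower.algebraMap_apply A B L,
      ← IsScalarTower.algebraMap_apply k A L]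
  have hz : z ∈ (algebraMap B L).range := by
    refine HeightOneSpectrum.mem_integers_of_valuation_le_one L z fun P => ?_
    by_cases hz0 : z = 0
    · rw [hz0, map_zero]; exact zero_le_one
    · rw [← placeOf_nonneg (k := k) P hz0]
      refine (Place.reg_iff _ hz0).1 (h _ fun a => ?_)
      rw [IsScalarTower.algebraMap_apply A B L]
      exact placeOf_reg _ _
  obtain ⟨b, rfl⟩ := hz
  exact b.2

end

theorem int_k {k K : Type} [Field k] [Field K] [Algebra k K] [IsFF k K] (v z : K)
    (hv : Transcendental k v) (hsep : Algebra.IsSeparable k⟮v⟯ K)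
    (h : ∀ x : Place k K, x.Reg v → x.Reg z) : IsIntegral (Algebra.adjoin k {v}) z := by
  open scoped algebraAdjoinAdjoin in
  let A := Algebra.adjoin k {v}
  let e := Polynomial.algEquivOfTranscendental k v hv
  have hpid : IsPrincipalIdealRing A := IsPrincipalIdealRing.of_surjective e.toRingEquiv e.surjective
  have hded : IsDedekindDomain A := inferInstance
  have hfin := IsFF.finite hv
  exact int_of_reg (k := k) (A := A) (L := K) k⟮v⟯ z
    (fun w hw => h w (hw ⟨v, Algebra.self_mem_adjoin_singleton k v⟩))

theorem taskInt : TaskInt := by
  intro p _ k K _ _ _ _ _ _ _ v z hv hsep h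
  have hint := int_k v z hv hsep h
  let A := Algebra.adjoin k {v}
  let A' := Algebra.adjoin (ZMod p) {v}
  let C := integralClosure A' K
  have hA : ∀ a : K, a ∈ A → a ∈ C := by
    intro a ha
    induction ha using Algebra.adjoin_induction with
    | mem x hx =>
      rw [Set.mem_singleton_iff] at hx
      subst hx
      exact C.algebraMap_mem ⟨x, Algebra.self_mem_adjoin_singleton (ZMod p) x⟩
    | algebraMap r =>
      change IsIntegral A' (algebraMap k K r)
      have hq : 1 < Nat.card k := Finite.one_lt_card
      refine ⟨Polynomial.X ^ (Nat.card k) - Polynomial.X, Polynomial.monic_X_pow_sub ?_, ?_⟩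
      · exact Polynomial.degree_X_le.trans_lt (by exact_mod_cast hq)
      · rw [Polynomial.eval₂_sub, Polynomial.eval₂_X_pow, Polynomial.eval₂_X, ← map_pow]
        have : Fintype k := Fintype.ofFinite k
        rw [Nat.card_eq_fintype_card, FiniteField.pow_card, sub_self]
    | add x y _ _ hx hy => exact C.add_mem hx hy
    | mul x y _ _ hx hy => exact C.mul_mem hx hy
  let ψ : A →+* C := (A.subtype : A →+* K).codRestrict C.toSubring.toSubsemiring (fun a => hA a a.2)
  have hC : IsIntegral C z := by
    obtain ⟨q, hq, he⟩ := hint
    refine ⟨q.map ψ, hq.map _, ?_⟩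
    rw [Polynomial.eval₂_map]
    exact he
  exact isIntegral_trans (R := A') (A := C) z hC

end H680ZP.TInt
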